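import Pool.Agent.H28.ModNormal

set_option autoImplicit false

namespace Pool.Agent.Results.MP_4e9c6d_co.ModularNormal

open Pool.Agent.H28.TangDefs

/-- Every tangential `k`-block over `GF(q)` with a modular hyperplane is normal. -/
theorem result (F : Type) [Field F] [Fintype F] (k : ℕ) (α : Type) [Fintype α] (M : Matroid α)
    (hrep : Representable F M) (hsimple : IsSimple M)
    (hblock : ¬ CritLE (Fintype.card F) k M)
    (htang : ∀ X : Set α, M.IsFlat X → X.Nonempty → CritLE (Fintype.card F) k (M.contract X))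
    (hmod : ∃ H : Set α, IsModularHyperplane M H) :
    IsSimplifiedQuotientOfComplete (Fintype.card F ^ k + 1) M := by
  obtain ⟨n, v, hv⟩ := hrep
  obtain ⟨H, hH⟩ := hmod
  have h := Pool.Agent.H28.Crit.rep_of_represents hv
  refine Pool.Agent.H28.ModNormal.normal_of_modular h hsimple k hblock (fun e he => ?_) hH
  have heE : ({e} : Set α) ⊆ M.E := by simpa using he
  have hflat : M.IsFlat {e} := by
    rw [h.isFlat_iff]
    refine ⟨heE, fun f hf hsp => ?_⟩
    by_contra hfe
    rw [Set.image_singleton, Submodule.mem_span_singleton] at hsp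
    obtain ⟨c, hc⟩ := hsp
    exact ((h.pair_indep_iff hfe hf he).1 (hsimple f hf e he)).2 c hc
  obtain ⟨L, h1, h2⟩ := (Pool.Agent.H28.Crit.critLE_contract_iff h k heE).1
    (htang {e} hflat (Set.singleton_nonempty e))
  exact ⟨L, fun i => h1 i e rfl, h2⟩

end Pool.Agent.Results.MP_4e9c6d_co.ModularNormal
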